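import Pool.Agent.Helper91.SD.T_RKA
import Pool.Agent.Helper17.SL.Chain

/-!
# Project SD (MP_fc6b1e_nt), packet T_RK (helper91)
-/

set_option autoImplicit false

namespace Pool.Agent.Helper91.SD.T_RK

open Pool.Agent.Helper17.SL

theorem t : Pool.Agent.Helper16.SD.T_RK :=
  core gen_holds (PkLA.thm PkSUB.thm) PkSA.thm PkSB.thm PkSC.thm

end Pool.Agent.Helper91.SD.T_RK
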