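import Pool.Agent.Helper16.SD.GoalsS
import Pool.Agent.Helper40.SL.SIXA

/-!
# Project SD (MP_fc6b1e_nt), packet T_RK: the rank of a matrix of `p`-adic logarithms, core (helper91)
-/

set_option autoImplicit false

namespace Pool.Agent.Helper91.SD.T_RK

open Pool.Agent.Helper51.SigLeo Pool.Agent.Helper51.SixExp NumberField Module
open Pool.Agent.Helper17.SL Pool.Agent.Helper16.SD
open Pool.Agent.Helper17.SL.PkSIXA (isLog_sum arith)

/-- The linear map `w ↦ (a ↦ ∑ ι(lam(a i)) w i)`. -/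
noncomputable def Tw {E k : Type} [Field E] [Field k] (f : E →+* k) (d : ℕ) :
    (Fin d → k) →ₗ[k] ((Fin d → E) → k) where
  toFun := fun w a ↦ ∑ i, f (a i) * w i
  map_add' := fun x y ↦ by
    funext a
    simp [mul_add, Finset.sum_add_distrib]
  map_smul' := fun r x ↦ by
    funext a
    simp [Finset.mul_sum, mul_left_comm]

theorem core (hGEN : S_GEN.{0, 0, 0, 0, 0}) (hLA : S_LA.{0, 0}) (hSA : S_SA.{0, 0, 0, 0})
    (hSB : S_SB.{0, 0, 0}) (hSC : S_SC.{0, 0}) : T_RK := by
  classical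
  intro hLBT p _ k _ _ _ _ _ Ω _ _ _ _ ι Λ E _ _ lam d l R _ b y M hy hM s t hC
  by_contra hcon
  push Not at hcon
  obtain ⟨r, hr⟩ : ∃ r : ℕ, r = M.rank := ⟨_, rfl⟩
  rw [← hr] at hcon
  have hs : 0 < s := by
    rcases Nat.eq_zero_or_pos s with h | h
    · rw [h] at hcon; simp at hcon
    · exact h
  have hl : 0 < l := by
    rcases Nat.eq_zero_or_pos l with h | h
    · rw [h] at hcon; simp at hcon
    · exact h
  have hr0 : 0 < r := by
    rcases Nat.eq_zero_or_pos r with h | h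
    · exfalso
      have hM0 : M = 0 := by
        have h5 : finrank k (LinearMap.range M.mulVecLin) = 0 := by
          rw [← h, hr]
          rfl
        have h6 : LinearMap.range M.mulVecLin = ⊥ := Submodule.finrank_eq_zero.1 h5
        have h7 : M.mulVecLin = 0 := LinearMap.range_eq_bot.1 h6
        ext i j
        have h8 := congrFun (LinearMap.congr_fun h7 (Pi.single j 1)) i
        simpa using h8
      have h1 := hC ⊤
      have h2 : annM (ι.comp lam) M ⊤ = ⊤ := by
        rw [eq_top_iff]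
        intro a _ c _
        simp [hM0]
      rw [h2, finrank_top, finrank_top, Module.finrank_fin_fun, Module.finrank_fin_fun,
        Nat.sub_self, mul_zero] at h1
      have h3 : 0 < s * l := Nat.mul_pos hs hl
      omega
    · exact h
  obtain ⟨xx, hxx⟩ : ∃ xx : Fin d → Fin l → R → k, xx = fun i j r ↦
    Λ.toFun (Units.map (ι : Ω →* k) (y i j r)) := ⟨_, rfl⟩
  have hMx : ∀ i j, M i j = ∑ r, ι (lam (b i j r)) * xx i j r := by
    intro i j
    rw [hM, hxx]
  have hxlog : ∀ i j r, IsLog Λ ι (xx i j r) := by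
    intro i j r
    refine ⟨1, one_pos, y i j r, hy i j r, ?_⟩
    rw [Nat.cast_one, one_mul, hxx]
  -- the form
  have hBlog : ∀ a c, IsLog Λ ι (Bform b xx a c) := by
    intro a c
    have hq := (hSC p k Ω ι Λ).2.2
    show IsLog Λ ι (∑ i, ∑ j, ∑ r, (Algebra.trace ℚ E (a i * c j * b i j r)) • xx i j r)
    exact isLog_sum hSC _ _ fun i _ ↦ isLog_sum hSC _ _ fun j _ ↦ isLog_sum hSC _ _ fun r _ ↦
      hq _ _ (hxlog i j r)
  have hBE : ∀ (e : E) a c, Bform b xx (e • a) c = Bform b xx a (e • c) := by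
    intro e a c
    show (∑ i, ∑ j, ∑ r, (Algebra.trace ℚ E ((e • a) i * c j * b i j r)) • xx i j r) =
      ∑ i, ∑ j, ∑ r, (Algebra.trace ℚ E (a i * (e • c) j * b i j r)) • xx i j r
    refine Finset.sum_congr rfl fun i _ ↦ Finset.sum_congr rfl fun j _ ↦
      Finset.sum_congr rfl fun r _ ↦ ?_
    rw [Pi.smul_apply, Pi.smul_apply, smul_eq_mul, smul_eq_mul]
    have h1 : e * a i * c j * b i j r = a i * (e * c j) * b i j r := by ring
    rw [h1]
  have hann : ∀ C : Submodule E (Fin l → E),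
      s * finrank E C ≤ t * (d - finrank E (annB (Bform b xx) C)) := by
    intro C
    refine (hC C).trans (Nat.mul_le_mul_left _ (Nat.sub_le_sub_left ?_ _))
    refine Submodule.finrank_mono ?_
    intro a ha c hc
    have h1 := hSB E k (ι.comp lam) d l R b xx a c (ha c hc)
    simpa only [RingHom.comp_apply, ← hMx] using h1
  -- dimensions
  obtain ⟨φ, hφ⟩ : ∃ φ : ℕ, φ = finrank ℚ E := ⟨_, rfl⟩
  have hφ0 : 0 < φ := by rw [hφ]; exact Module.finrank_pos
  have hdV : finrank ℚ (Fin d → E) = d * φ := by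
    rw [Module.finrank_pi_fintype]
    simp [hφ]
  have hlV : finrank ℚ (Fin l → E) = l * φ := by
    rw [Module.finrank_pi_fintype]
    simp [hφ]
  have : Fintype {σ : E →+* Ω // σ ≠ lam} := Fintype.ofFinite _
  have hcI : Fintype.card ({σ : E →+* Ω // σ ≠ lam} × Fin d) = (φ - 1) * d := by
    rw [Fintype.card_prod, Fintype.card_fin]
    congr 1
    rw [Fintype.card_subtype_compl (fun σ : E →+* Ω ↦ σ = lam), Fintype.card_subtype_eq,
      NumberField.Embeddings.card, hφ]
  -- the maps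
  obtain ⟨cb, -⟩ : ∃ cb : Basis (Fin (finrank ℚ (Fin l → E))) ℚ (Fin l → E), True :=
    ⟨Module.finBasis ℚ (Fin l → E), trivial⟩
  let Y : Fin (finrank ℚ (Fin l → E)) → (Fin d → E) →ₗ[ℚ] k := fun j ↦ (Bform b xx).flip (cb j)
  have hY : ∀ j a, Y j a = Bform b xx a (cb j) := fun j a ↦ rfl
  -- the span
  let G : ({σ : E →+* Ω // σ ≠ lam} × Fin d) → (Fin d → E) → k := fun q a ↦ ι (conjX lam d q a)
  have hspan : Submodule.span k ((Set.range fun i ↦ (fun v ↦ ι (conjX lam d i v) : (Fin d → E) → k)) ∪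
      (Set.range fun j ↦ (fun v ↦ Y j v : (Fin d → E) → k))) ≤
      Submodule.span k (Set.range G) ⊔ (LinearMap.range M.mulVecLin).map (Tw (ι.comp lam) d) := by
    rw [Submodule.span_le]
    rintro f (⟨q, rfl⟩ | ⟨j, rfl⟩)
    · exact Submodule.mem_sup_left (Submodule.subset_span ⟨q, rfl⟩)
    · have hYj : (fun v ↦ Y j v : (Fin d → E) → k) =
          (∑ q : {σ : E →+* Ω // σ ≠ lam} × Fin d,
            (∑ j', ι (q.1.1 (cb j j')) * ∑ r, ι (q.1.1 (b q.2 j' r)) * xx q.2 j' r) •
              G q) + Tw (ι.comp lam) d (M.mulVecLin fun j' ↦ ι (lam (cb j j'))) := by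
        funext a
        rw [hY, hSA E Ω k ι d l R b xx a (cb j)]
        rw [Pi.add_apply, Finset.sum_apply]
        simp only [Pi.smul_apply, smul_eq_mul]
        rw [← Finset.add_sum_erase Finset.univ _ (Finset.mem_univ lam), add_comm]
        congr 1
        · rw [Fintype.sum_prod_type]
          rw [← Finset.sum_subtype_of_mem
            (f := fun σ : E →+* Ω ↦ ∑ i, ∑ j', ι (σ (a i)) * ι (σ (cb j j')) *
              ∑ r, ι (σ (b i j' r)) * xx i j' r) (s := Finset.univ.erase lam)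
              (p := fun σ ↦ σ ≠ lam) (fun σ hσ ↦ (Finset.mem_erase.1 hσ).1)]
          have hs : (Finset.univ.erase lam).subtype (fun σ : E →+* Ω ↦ σ ≠ lam) = Finset.univ := by
            ext σ
            simp [σ.2]
          rw [hs]
          refine Finset.sum_congr rfl fun σ _ ↦ Finset.sum_congr rfl fun i _ ↦ ?_
          show _ = (∑ j', ι (σ.1 (cb j j')) * ∑ r, ι (σ.1 (b i j' r)) * xx i j' r) * ι (σ.1 (a i))
          rw [Finset.sum_mul]
          refine Finset.sum_congr rfl fun j' _ ↦ ?_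
          ring
        · show _ = ∑ i, (ι.comp lam) (a i) * (M.mulVecLin fun j' ↦ ι (lam (cb j j'))) i
          refine Finset.sum_congr rfl fun i _ ↦ ?_
          rw [Matrix.mulVecLin_apply, Matrix.mulVec, dotProduct, Finset.mul_sum]
          refine Finset.sum_congr rfl fun j' _ ↦ ?_
          rw [hMx, RingHom.comp_apply]
          ring
      show (fun v ↦ Y j v : (Fin d → E) → k) ∈ _
      rw [hYj]
      refine Submodule.add_mem_sup (Submodule.sum_mem _ fun q _ ↦
        Submodule.smul_mem _ _ (Submodule.subset_span ⟨q, rfl⟩)) ?_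
      exact Submodule.mem_map_of_mem ⟨_, rfl⟩
  have hN : finrank k (Submodule.span k
      ((Set.range fun i ↦ (fun v ↦ ι (conjX lam d i v) : (Fin d → E) → k)) ∪
      (Set.range fun j ↦ (fun v ↦ Y j v : (Fin d → E) → k)))) ≤ (φ - 1) * d + r := by
    haveI : FiniteDimensional k (Submodule.span k (Set.range G)) :=
      FiniteDimensional.span_of_finite k (Set.finite_range G)
    refine (Submodule.finrank_mono hspan).trans ?_
    refine (Submodule.finrank_add_le_finrank_add_finrank _ _).trans ?_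
    have h1 := finrank_range_le_card (R := k) G
    rw [hcI] at h1
    have h2 : finrank k ((LinearMap.range M.mulVecLin).map (Tw (ι.comp lam) d)) ≤ r := by
      rw [hr]
      exact Submodule.finrank_map_le _ _
    exact add_le_add h1 h2
  -- real constants
  have hφR : (0 : ℝ) < φ := by exact_mod_cast hφ0
  have hsR : (0 : ℝ) < s := by exact_mod_cast hs
  have htR : (0 : ℝ) ≤ t := Nat.cast_nonneg _
  have hlR : (0 : ℝ) < l := by exact_mod_cast hl
  have hrR : (0 : ℝ) < r := by exact_mod_cast hr0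
  have hconR : ((s : ℝ) + t) * r < s * l := by exact_mod_cast hcon
  obtain ⟨β, hβ1, hβ2⟩ : ∃ β : ℝ, r / (l * φ : ℝ) < β ∧ β < s / ((s + t) * φ) := by
    refine exists_between ?_
    rw [div_lt_div_iff₀ (by positivity) (by positivity)]
    nlinarith
  have hβ0 : 0 < β := lt_trans (by positivity) hβ1
  have hβ3 : β * ((s + t) * φ) < s := by rwa [lt_div_iff₀ (by positivity)] at hβ2
  have hφ1 : (1 : ℝ) ≤ φ := by exact_mod_cast hφ0
  have hβlt : β < 1 := by
    refine lt_of_lt_of_le hβ2 ?_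
    rw [div_le_one (by positivity)]
    nlinarith
  have hβ4 : (r : ℝ) < β * (l * φ) := by rwa [div_lt_iff₀ (by positivity)] at hβ1
  obtain ⟨A, hA1, hA2⟩ := hGEN p k Ω ι Λ (Fin d → E) ({σ : E →+* Ω // σ ≠ lam} × Fin d)
    (Fin (finrank ℚ (Fin l → E))) (conjX lam d) Y ((φ - 1) * d + r) β
    (fun j v ↦ hBlog v (cb j)) (by omega) hN hβ0 hβlt (by
      rw [hcI, Fintype.card_fin, hlV]
      push_cast
      linarith)
  -- the consequence of LA
  have hA3 := hLA E Ω lam d A
  rw [← hφ] at hA3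
  -- the consequence of LBT
  have hA4 := hLBT E k d l s t (Bform b xx) hBE hann A
    ((relY Y A).map (cb.equivFun.symm : (Fin (finrank ℚ (Fin l → E)) → ℚ) →ₗ[ℚ] (Fin l → E))) (by
      rintro c ⟨s', hs, rfl⟩ a ha
      have hs' : ∀ v ∈ A, ∑ j, s' j • Y j v = 0 := hs
      have h1 := hs' a ha
      show Bform b xx a (cb.equivFun.symm s') = 0
      rw [Basis.equivFun_symm_apply, map_sum]
      simp only [map_smul]
      exact h1)
  rw [LinearEquiv.finrank_map_eq, ← hφ] at hA4
  obtain ⟨sX, hsX⟩ : ∃ sX : ℕ, sX = finrank Ω (spanX (conjX lam d) A) := ⟨_, rfl⟩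
  obtain ⟨m', hm'⟩ : ∃ m' : ℕ, m' = finrank ℚ (relY Y A) := ⟨_, rfl⟩
  obtain ⟨rA, hrA⟩ : ∃ rA : ℕ, rA = finrank ℚ A := ⟨_, rfl⟩
  rw [← hsX, ← hrA] at hA3
  rw [← hm', ← hrA] at hA4
  rw [← hsX, ← hm', hcI] at hA1
  rw [← hsX, ← hm', ← hrA, hcI, hdV] at hA2
  have hrle : rA ≤ d * φ := by
    rw [hrA, ← hdV]
    exact Submodule.finrank_le A
  have hsle : sX ≤ (φ - 1) * d := by
    rw [hsX, ← hcI, ← Module.finrank_fintype_fun_eq_card (R := Ω)]
    exact Submodule.finrank_le _
  have hφs : ((φ - 1 : ℕ) : ℝ) = (φ : ℝ) - 1 := by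
    rw [Nat.cast_sub hφ0, Nat.cast_one]
  have hA3R : ((φ : ℝ) - 1) * rA ≤ φ * sX := by
    rw [← hφs]
    exact_mod_cast hA3
  have hA4R : (s : ℝ) * m' + t * rA ≤ t * (d * φ) := by exact_mod_cast hA4
  have hrleR : (rA : ℝ) ≤ d * φ := by exact_mod_cast hrle
  have hsleR : (sX : ℝ) ≤ ((φ : ℝ) - 1) * d := by
    rw [← hφs]
    exact_mod_cast hsle
  push_cast at hA2
  rw [hφs] at hA2
  have hzero : ((d : ℝ) * φ - rA) = 0 := by
    refine arith (φ := φ) (d := s) (l := t) (n' := ((φ : ℝ) - 1) * d - sX) (m' := m') (β := β) hφR hsR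
      (by linarith) hβ3 hβ0 ?_ ?_ hA2
    · nlinarith
    · nlinarith
  have hm0 : (m' : ℝ) ≤ 0 := by
    have : (s : ℝ) * m' ≤ 0 := by nlinarith
    by_contra h
    push Not at h
    have := mul_pos hsR h
    linarith
  have hm00 : m' = 0 := by
    have : (0 : ℝ) ≤ m' := Nat.cast_nonneg _
    exact_mod_cast le_antisymm hm0 this
  rcases hA1 with h | h
  · apply h
    have h1 : ((φ : ℝ) - 1) * d ≤ sX := by
      have : φ * (((φ : ℝ) - 1) * d) ≤ φ * sX := by nlinarith
      exact le_of_mul_le_mul_left this hφR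
    have h2 : (sX : ℝ) = ((φ : ℝ) - 1) * d := le_antisymm hsleR h1
    rw [← hφs] at h2
    exact_mod_cast h2
  · exact h hm00

end Pool.Agent.Helper91.SD.T_RK
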