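import Pool.Agent.Helper16.SD.GoalsX

/-!
# Packet SD-X_PRE (project SD, MP_fc6b1e_nt): `p^(m+1) N` is contained in `T' N`
-/

set_option autoImplicit false

namespace Pool.Agent.Helper91.SD.X_PRE

open Module TensorProduct
open Pool.Agent.Helper51.SigLeo
open Pool.Agent.Helper16.SD
open Pool.Agent.Helper17.TH (exO tm Wsub Acts tm_smul tm_exO)

theorem t : Pool.Agent.Helper16.SD.X_PRE := by
  intro p _ A _ G _ act χ η gt ℓs O _ _ _ j c u m H z hz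
  set n : ℕ := p ^ m with hn
  set a : O := c gt * algebraMap ℤ_[p] O (u gt : ℤ_[p]ˣ) with ha
  set a' : ℂ_[p] := ((χ gt : ℂ_[p]ˣ) : ℂ_[p]) * zp p (u gt : ℤ_[p]ˣ) with ha'
  have hzp : ∀ x : ℤ_[p], j (algebraMap ℤ_[p] O x) = zp p x := fun x ↦ H.alg x
  have hja : j a = a' := by rw [ha, map_mul, H.hc, hzp]
  have hone : act 1 = AddMonoidHom.id A := H.acts.fix 1 (map_one _) (map_one _)
  set v : ℂ_[p] ⊗[ℤ] A := tm j A z with hv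
  -- the geometric sum
  set z₁ : O ⊗[ℤ] A := ∑ i ∈ Finset.range n, a ^ (n - 1 - i) • exO O (act (gt ^ i)) z with hz₁
  have htm₁ : tm j A z₁ = ∑ i ∈ Finset.range n, a' ^ (n - 1 - i) • extEnd (act (gt ^ i)) v := by
    rw [hz₁, map_sum]
    refine Finset.sum_congr rfl fun i _ ↦ ?_
    rw [tm_smul, tm_exO, map_pow, hja]
  have hW₁ : tm j A z₁ ∈ Wsub act χ η ℓs := by
    rw [htm₁]
    exact Submodule.sum_mem _ fun i _ ↦
      Submodule.smul_mem _ _ (H.acts.W_ext H.stab (gt ^ i) hz)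
  have htel : extEnd (act gt) (tm j A z₁) - a' • tm j A z₁ =
      extEnd (act (gt ^ n)) v - a' ^ n • v := by
    have h := Finset.sum_range_sub (fun i ↦ a' ^ (n - i) • extEnd (act (gt ^ i)) v) n
    rw [Nat.sub_self, pow_zero, one_smul, Nat.sub_zero, pow_zero, hone, extEnd_id] at h
    rw [← h, htm₁, map_sum, Finset.smul_sum, ← Finset.sum_sub_distrib]
    refine Finset.sum_congr rfl fun i hi ↦ ?_
    have hi' : i < n := Finset.mem_range.1 hi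
    have e1 : n - 1 - i = n - (i + 1) := by omega
    have e2 : n - i = (n - 1 - i) + 1 := by omega
    rw [map_smul, ← extEnd_comp, ← H.acts.mul, ← pow_succ' gt, smul_smul, ← pow_succ' a', ← e2,
      e1]
  have hηn : η (gt ^ n) = 1 := by rw [map_pow, hn, H.eta_gt]
  have hn2 : extEnd (act (gt ^ n)) v = ((χ gt : ℂ_[p]ˣ) : ℂ_[p]) ^ n • v := by
    rw [hz.2 (gt ^ n) hηn, map_pow, Units.val_pow_eq_pow_val]
  obtain ⟨w, hw⟩ := H.u_gt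
  have hw' : zp p ((u gt : ℤ_[p]ˣ) : ℤ_[p]) ^ n = 1 + (p : ℂ_[p]) ^ (m + 1) * zp p w := by
    rw [← map_pow, eq_add_of_sub_eq' hw, map_add, map_one, map_mul, map_pow, map_natCast]
  refine ⟨(-(c gt⁻¹ ^ n) * algebraMap ℤ_[p] O ((w⁻¹ : ℤ_[p]ˣ) : ℤ_[p])) • z₁, ?_, ?_⟩
  · rw [tm_smul]
    exact Submodule.smul_mem _ _ hW₁
  · have hcoef : j (-(c gt⁻¹ ^ n) * algebraMap ℤ_[p] O ((w⁻¹ : ℤ_[p]ˣ) : ℤ_[p])) =
        -((((χ gt)⁻¹ : ℂ_[p]ˣ) : ℂ_[p]) ^ n * zp p ((w⁻¹ : ℤ_[p]ˣ) : ℤ_[p])) := by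
      rw [map_mul, map_neg, map_pow, H.hc, hzp, map_inv, neg_mul]
    have hχ : (((χ gt)⁻¹ : ℂ_[p]ˣ) : ℂ_[p]) ^ n * ((χ gt : ℂ_[p]ˣ) : ℂ_[p]) ^ n = 1 := by
      rw [← mul_pow, ← Units.val_mul, inv_mul_cancel, Units.val_one, one_pow]
    have hww : zp p ((w⁻¹ : ℤ_[p]ˣ) : ℤ_[p]) * zp p w = 1 := by
      rw [← map_mul, ← Units.val_mul, inv_mul_cancel, Units.val_one, map_one]
    rw [tm_smul, hcoef, map_smul, smul_comm a', ← smul_sub, htel, hn2, ← sub_smul, smul_smul,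
      ha', mul_pow, hw']
    have hfin : -((((χ gt)⁻¹ : ℂ_[p]ˣ) : ℂ_[p]) ^ n * zp p ((w⁻¹ : ℤ_[p]ˣ) : ℤ_[p])) *
        (((χ gt : ℂ_[p]ˣ) : ℂ_[p]) ^ n -
          ((χ gt : ℂ_[p]ˣ) : ℂ_[p]) ^ n * (1 + (p : ℂ_[p]) ^ (m + 1) * zp p w)) =
        ((p ^ (m + 1) : ℕ) : ℂ_[p]) := by
      rw [Nat.cast_pow]
      linear_combination (zp p ((w⁻¹ : ℤ_[p]ˣ) : ℤ_[p]) * zp p w * (p : ℂ_[p]) ^ (m + 1)) * hχ +
        ((p : ℂ_[p]) ^ (m + 1)) * hww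
    rw [hfin, Nat.cast_smul_eq_nsmul]

end Pool.Agent.Helper91.SD.X_PRE
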